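import Pool.Agent.U180.NG.Stm2
import Pool.Agent.U668.NG.CNT

/-!
# Project NG, second part, package VAS: asymptotics of the variance
-/

set_option autoImplicit false

open MeasureTheory ProbabilityTheory Filter Topology
open Pool.Agent.U180.NG
open Pool.Agent.U668.NG (measurableSet_disc noise_bound tri)

namespace Pool.Agent.U451.NG

/-- the number of the points of the box in the lune -/
noncomputable def gg (R : ℝ) (B : ℕ) (q : (ℝ × ℝ) × (ℝ × ℝ)) : ℝ :=
  ∑ z ∈ box B, (disc R z ×ˢ (disc R z)ᶜ).indicator (fun _ => (1 : ℝ)) q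

theorem measurable_gg (R : ℝ) (B : ℕ) : Measurable (gg R B) := by
  unfold gg
  apply Finset.measurable_sum
  intro z _
  exact measurable_const.indicator ((measurableSet_disc R z).prod (measurableSet_disc R z).compl)

theorem integral_gg (ν : Measure (ℝ × ℝ)) [IsProbabilityMeasure ν] (R : ℝ) (B : ℕ) :
    ∫ q, gg R B q ∂(ν.prod ν) = ∑ z ∈ box B, ν.real (disc R z) * (1 - ν.real (disc R z)) := by
  unfold gg
  rw [integral_finsetSum]
  · refine Finset.sum_congr rfl fun z _ => ?_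
    rw [integral_indicator_const _ ((measurableSet_disc R z).prod (measurableSet_disc R z).compl),
      smul_eq_mul, mul_one, measureReal_def, Measure.prod_prod, ENNReal.toReal_mul,
      ← measureReal_def, ← measureReal_def, probReal_compl_eq_one_sub (measurableSet_disc R z)]
  · intro z _
    exact (integrable_const (1 : ℝ)).indicator
      ((measurableSet_disc R z).prod (measurableSet_disc R z).compl)

theorem mem_box_of (R ρ : ℝ) (B : ℕ) (hR : 0 ≤ R) (hB : R + 2 * ρ + 2 ≤ B) (hρ : 0 ≤ ρ) (x : ℝ × ℝ)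
    (h1 : |x.1| ≤ 1 + ρ) (h2 : |x.2| ≤ ρ) (z : ℤ × ℤ) (hz : x ∈ disc R z) : z ∈ box B := by
  have hz' : ((z.1 : ℝ) + x.1) ^ 2 + ((z.2 : ℝ) + x.2) ^ 2 ≤ R ^ 2 := hz
  have g1 : |(z.1 : ℝ) + x.1| ≤ R := abs_le_of_sq_le_sq (by nlinarith) hR
  have g2 : |(z.2 : ℝ) + x.2| ≤ R := abs_le_of_sq_le_sq (by nlinarith) hR
  rw [abs_le] at g1 g2 h1 h2
  unfold box
  rw [Finset.mem_product, Finset.mem_Icc, Finset.mem_Icc]
  refine ⟨⟨?_, ?_⟩, ⟨?_, ?_⟩⟩
  · have : (-(B : ℝ)) ≤ (z.1 : ℝ) := by linarith [g1.1, h1.2]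
    exact_mod_cast this
  · have : (z.1 : ℝ) ≤ (B : ℝ) := by linarith [g1.2, h1.1]
    exact_mod_cast this
  · have : (-(B : ℝ)) ≤ (z.2 : ℝ) := by linarith [g2.1, h2.2]
    exact_mod_cast this
  · have : (z.2 : ℝ) ≤ (B : ℝ) := by linarith [g2.2, h2.1]
    exact_mod_cast this

open Classical in
theorem gg_eq_card (R : ℝ) (B : ℕ) (q : (ℝ × ℝ) × (ℝ × ℝ)) :
    gg R B q = (((box B).filter fun z => q.1 ∈ disc R z ∧ q.2 ∉ disc R z).card : ℝ) := by
  unfold gg
  rw [← Finset.sum_boole]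
  refine Finset.sum_congr rfl fun z _ => ?_
  rw [Set.indicator_apply]
  rfl

theorem gg_eq_lune (R ρ : ℝ) (B : ℕ) (hR : 0 ≤ R) (hB : R + 2 * ρ + 2 ≤ B) (hρ : 0 ≤ ρ)
    (q : (ℝ × ℝ) × (ℝ × ℝ)) (h1 : |q.1.1| ≤ 1 + ρ) (h2 : |q.1.2| ≤ ρ) :
    gg R B q = ((lune R q.1 q.2).ncard : ℝ) := by
  classical
  rw [gg_eq_card]
  have e : lune R q.1 q.2 = (((box B).filter fun z => q.1 ∈ disc R z ∧ q.2 ∉ disc R z : Finset (ℤ × ℤ)) : Set (ℤ × ℤ)) := by
    ext z
    simp only [Finset.coe_filter]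
    exact ⟨fun hz => ⟨mem_box_of R ρ B hR hB hρ q.1 h1 h2 z hz.1, hz⟩, fun hz => hz.2⟩
  rw [e, Set.ncard_coe_finset]

theorem gg_le (R ρ : ℝ) (B : ℕ) (hR : 0 ≤ R) (q : (ℝ × ℝ) × (ℝ × ℝ))
    (h1 : |q.1.1| ≤ 1 + ρ) (h2 : |q.1.2| ≤ ρ) (h3 : |q.2.1| ≤ 1 + ρ) (h4 : |q.2.2| ≤ ρ) :
    gg R B q ≤ ((ann (2 * ρ + 1) R B).card : ℝ) := by
  classical
  rw [gg_eq_card]
  have hsub : ((box B).filter fun z => q.1 ∈ disc R z ∧ q.2 ∉ disc R z) ⊆ ann (2 * ρ + 1) R B := by
    intro z hz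
    rw [Finset.mem_filter] at hz
    obtain ⟨hz0, hz1, hz2⟩ := hz
    unfold ann
    rw [Finset.mem_filter]
    refine ⟨hz0, ?_⟩
    have hz1' : ((z.1 : ℝ) + q.1.1) ^ 2 + ((z.2 : ℝ) + q.1.2) ^ 2 ≤ R ^ 2 := hz1
    have hz2' : R ^ 2 < ((z.1 : ℝ) + q.2.1) ^ 2 + ((z.2 : ℝ) + q.2.2) ^ 2 := not_le.mp hz2
    rw [← Real.sqrt_le_left hR] at hz1'
    have hz2'' : R < Real.sqrt (((z.1 : ℝ) + q.2.1) ^ 2 + ((z.2 : ℝ) + q.2.2) ^ 2) :=
      Real.lt_sqrt_of_sq_lt hz2'
    have t1 := tri ((z.1 : ℝ) + q.1.1) ((z.2 : ℝ) + q.1.2) (-q.1.1) (-q.1.2)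
    rw [add_neg_cancel_right, add_neg_cancel_right, abs_neg, abs_neg] at t1
    have t2 := tri z.1 z.2 q.2.1 q.2.2
    rw [abs_le]
    constructor <;> linarith
  exact_mod_cast Finset.card_le_card hsub

/-- the law of the displacement has no atoms -/
theorem noise_noatom (δ : ℝ) (μ : Measure (ℝ × ℝ)) [IsProbabilityMeasure μ] (x : ℝ × ℝ) :
    noiseLaw δ μ {x} = 0 := by
  unfold noiseLaw
  have hm : Measurable (fun p : ℝ × (ℝ × ℝ) => (p.1 + p.2.1, p.2.2)) := by fun_prop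
  rw [Measure.map_apply hm (measurableSet_singleton x)]
  rw [Measure.prod_apply_symm (hm (measurableSet_singleton x))]
  rw [lintegral_eq_zero_iff' (by
    exact (measurable_measure_prodMk_right (hm (measurableSet_singleton x))).aemeasurable)]
  refine Eventually.of_forall fun y => ?_
  have hsub : ((fun t : ℝ => (t, y)) ⁻¹' ((fun p : ℝ × (ℝ × ℝ) => (p.1 + p.2.1, p.2.2)) ⁻¹' {x}))
      ⊆ {x.1 - y.1} := by
    intro t ht
    have h1 : (t + y.1, y.2) = x := ht
    have h2 : t + y.1 = x.1 := congrArg Prod.fst h1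
    rw [Set.mem_singleton_iff]
    linarith
  refine measure_mono_null hsub ?_
  rw [Measure.smul_apply]
  have h0 : (volume.restrict (Set.Icc 0 δ)) {x.1 - y.1} = 0 :=
    Measure.absolutelyContinuous_of_le Measure.restrict_le_self (Real.volume_singleton)
  rw [h0, smul_zero]

theorem t_VAS (h1 : S_LUNE) (h2 : S_ANN) (h3 : S_PZ) : S_VAS := by
  classical
  intro δ ρ μ hδ hδ1 hμ hs
  have hν : IsProbabilityMeasure (noiseLaw δ μ) := (h3 δ μ hδ hμ).1
  have hρ : 0 ≤ ρ := by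
    obtain ⟨y, hy, _⟩ := hs.exists
    exact (abs_nonneg _).trans hy
  have hb := noise_bound δ ρ μ hδ1 hs
  set ν := noiseLaw δ μ with hνdef
  have hbA := (Measure.quasiMeasurePreserving_fst (μ := ν) (ν := ν)).ae hb
  have hbB := (Measure.quasiMeasurePreserving_snd (μ := ν) (ν := ν)).ae hb
  -- the distance
  set dd : (ℝ × ℝ) × (ℝ × ℝ) → ℝ := fun q =>
    Real.sqrt ((q.1.1 - q.2.1) ^ 2 + (q.1.2 - q.2.2) ^ 2) with hdd
  have hddm : Measurable dd := by
    rw [hdd]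
    fun_prop
  have hddint : Integrable dd (ν.prod ν) := by
    refine Integrable.of_bound hddm.aestronglyMeasurable (4 * ρ + 2) ?_
    filter_upwards [hbA, hbB] with q hq hq'
    rw [Real.norm_eq_abs, abs_of_nonneg (Real.sqrt_nonneg _)]
    have t := tri 0 0 (q.1.1 - q.2.1) (q.1.2 - q.2.2)
    rw [zero_add, zero_add] at t
    have t0 : Real.sqrt ((0 : ℝ) ^ 2 + 0 ^ 2) = 0 := by simp
    rw [t0, zero_add] at t
    have a1 := abs_sub q.1.1 q.2.1
    have a2 := abs_sub q.1.2 q.2.2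
    show Real.sqrt ((q.1.1 - q.2.1) ^ 2 + (q.1.2 - q.2.2) ^ 2) ≤ _
    linarith [hq.1, hq.2, hq'.1, hq'.2]
  have hspread : spread ν = ∫ q, dd q ∂(ν.prod ν) := by
    rw [integral_prod _ hddint]
    rfl
  refine ⟨?_, ?_⟩
  · rw [hspread, integral_pos_iff_support_of_nonneg (fun q => Real.sqrt_nonneg _) hddint]
    have hdiag : (ν.prod ν) {q | q.1 = q.2} = 0 := by
      have hms : MeasurableSet {q : (ℝ × ℝ) × (ℝ × ℝ) | q.1 = q.2} :=
        measurableSet_eq_fun measurable_fst measurable_snd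
      rw [Measure.measure_prod_null hms]
      refine Eventually.of_forall fun x => ?_
      have e : (Prod.mk x ⁻¹' {q : (ℝ × ℝ) × (ℝ × ℝ) | q.1 = q.2}) = {x} := by
        ext y
        simp only [Set.mem_preimage, Set.mem_singleton_iff]
        exact ⟨fun h => h.symm, fun h => h.symm⟩
      show ν (Prod.mk x ⁻¹' {q : (ℝ × ℝ) × (ℝ × ℝ) | q.1 = q.2}) = 0
      rw [e]
      exact noise_noatom δ μ x
    have hsup : (Function.support dd)ᶜ ⊆ {q | q.1 = q.2} := by
      intro q hq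
      rw [Set.mem_compl_iff, Function.mem_support, not_not] at hq
      have hq' : Real.sqrt ((q.1.1 - q.2.1) ^ 2 + (q.1.2 - q.2.2) ^ 2) = 0 := hq
      rw [Real.sqrt_eq_zero (by positivity)] at hq'
      have b1 : (q.1.1 - q.2.1) ^ 2 = 0 := by nlinarith [sq_nonneg (q.1.1 - q.2.1), sq_nonneg (q.1.2 - q.2.2)]
      have b2 : (q.1.2 - q.2.2) ^ 2 = 0 := by nlinarith [sq_nonneg (q.1.1 - q.2.1), sq_nonneg (q.1.2 - q.2.2)]
      have c1 := pow_eq_zero_iff (two_ne_zero) |>.mp b1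
      have c2 := pow_eq_zero_iff (two_ne_zero) |>.mp b2
      show q.1 = q.2
      exact Prod.ext (by linarith) (by linarith)
    have h0 : (ν.prod ν) (Function.support dd)ᶜ = 0 := measure_mono_null hsup hdiag
    have h1' : (ν.prod ν) (Function.support dd) = 1 := by
      exact (prob_compl_eq_zero_iff (measurableSet_support hddm)).mp h0
    rw [h1']
    exact zero_lt_one
  · obtain ⟨Aa, hAa, hann⟩ := h2 (2 * ρ + 1) (by linarith)
    have hlim : Tendsto (fun R : ℝ => ∫ q, gg R ⌈R + 2 * ρ + 2⌉₊ q / R ∂(ν.prod ν)) atTop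
        (𝓝 (∫ q, 2 * dd q ∂(ν.prod ν))) := by
      refine tendsto_integral_filter_of_dominated_convergence (fun _ => Aa) ?_ ?_ ?_ ?_
      · exact Eventually.of_forall fun R =>
          ((measurable_gg R _).div_const R).aestronglyMeasurable
      · filter_upwards [eventually_ge_atTop (1 : ℝ)] with R hR
        filter_upwards [hbA, hbB] with q hq hq'
        have hR0 : 0 < R := by linarith
        have hg0 : 0 ≤ gg R ⌈R + 2 * ρ + 2⌉₊ q := by
          rw [gg_eq_card]; positivity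
        rw [Real.norm_eq_abs, abs_of_nonneg (by positivity), div_le_iff₀ hR0]
        exact (gg_le R ρ _ hR0.le q hq.1 hq.2 hq'.1 hq'.2).trans (hann R _ hR)
      · exact integrable_const _
      · filter_upwards [hbA] with q hq
        have hl := h1 q.1 q.2
        have e : (fun R : ℝ => ((lune R q.1 q.2).ncard : ℝ) / R) =ᶠ[atTop]
            fun R => gg R ⌈R + 2 * ρ + 2⌉₊ q / R := by
          filter_upwards [eventually_ge_atTop (0 : ℝ)] with R hR
          rw [gg_eq_lune R ρ _ hR (Nat.le_ceil _) hρ q hq.1 hq.2]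
        exact hl.congr' e
    rw [integral_const_mul, ← hspread] at hlim
    refine hlim.congr fun R => ?_
    rw [integral_div, integral_gg]

end Pool.Agent.U451.NG
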